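import Pool.Agent.Q152.TA.Artin

/-!
# Artin groups with separating sets of commuting generators

`Closed C` (`Pool.Agent.Y462.SS.Base`): the class `C` of groups contains `ℤ` and is closed under
groups that embed, finite products, free products, overgroups of finite index and colimits of directed
systems.  `ExtClosed C` (`Pool.Agent.Q152.WP.Perm`): if `G` maps onto a group `Q` of `C`, and the
kernel and the preimages of all infinite cyclic subgroups of `Q` are in `C`, then `G` is in `C`.
`HasSolvable C`: solvable groups are in `C`.  `FiniteRank C`: the Coxeter groups of finite rank are in
`C`.  These properties are known for the class of the groups which satisfy the `K`- and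
`L`-theoretic Farrell–Jones conjecture with coefficients in additive categories and finite wreath
products (for Coxeter groups, which are `CAT(0)` groups by Moussong, by Bartels and Lück, for solvable
groups by Wegner).

`Artin M` (`Pool.Agent.Helper741.Alt`): the Artin group of the Coxeter matrix `M` on a set of any size
(the entry `0` stands for infinity, i.e. no relation).  `rs M P`: the restriction of `M` to the set `P` of
generators.  `Sep M P P₀`: the set of all generators is the union of the sets `P i`, any two of which meet in
`P₀`, there are no relations between generators of `P i ∖ P₀` and `P j ∖ P₀` for `i ≠ j`, and the
generators in `P₀` commute pairwise by the relations (entries `2`).  `Sub M' M`: `M'` is the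
restriction of `M` to a set of generators, up to the names.  `Prime M'`: there is no proper separation,
i.e. if `P₁` and `P₂` together contain all generators, no generator outside `P₂` has a relation with a
generator outside `P₁`, and the generators in `P₁ ∩ P₂` commute pairwise, then `P₁` or `P₂`
contains all generators.

Proof.  For a separation the Artin group is the amalgamated product of the Artin groups of the
`P i` over the free abelian group `Artin (rs M P₀)`.  Let `W` be the Coxeter group of `M`.  The map
`s ↦ (δ_s, s)` defines a homomorphism from the Artin group to the extension of `W` by the group of
finitely supported functions from `W` to `ℤ`, which is in `C`.  It is injective on `Artin (rs M P₀)`,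
also if its generators are conjugate in the Artin group: the value of the function at `s` is
the exponent of `s`, because different generators are different elements of `W`.  So the theorem on amalgamated
products with a homomorphism to a group of `C` that is injective on the amalgamated subgroup applies.
-/

set_option autoImplicit false

namespace Pool.Agent.Results.MP_e40716_gt.CommutingSeparators

open Pool.Agent.Y462.SS Pool.Agent.Q152.WP Pool.Agent.Q152.AS Pool.Agent.Q91.FJ
open Pool.Agent.Helper741

/-- The Coxeter groups of finite rank are in the class. -/
def FiniteRank (C : ∀ (G : Type) [Group G], Prop) : Prop :=
  ∀ (B : Type) [Finite B] (M : CoxeterMatrix B), C M.Group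

/-- Let `C` be a class of groups with the closure properties `Closed C` and `ExtClosed C` which contains
the solvable groups and the Coxeter groups of finite rank, and let `M` be any Coxeter matrix, of
finite or infinite rank.

(1) If the set `P₀` of commuting generators separates the generators into the sets `P i`, then
the Artin group of `M` is in `C` if and only if the Artin groups of all `P i` are in `C`.

(2) If the Artin groups of all finite sets of generators without a separating set of commuting
generators are in `C`, then the Artin group of `M` is in `C`. -/
theorem result (C : ∀ (G : Type) [Group G], Prop) (hC : Closed C) (hE : ExtClosed C)
    (hS : HasSolvable C) (hW : FiniteRank C) (B : Type) (M : CoxeterMatrix B) :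
    (∀ (I : Type) [Nonempty I] (P : I → Set B) (P₀ : Set B), Sep M P P₀ →
      (C (Artin M) ↔ ∀ i, C (Artin (rs M (P i))))) ∧
    ((∀ (B' : Type) [Finite B'] (M' : CoxeterMatrix B'), Sub M' M → Prime M' →
      C (Artin M')) → C (Artin M)) :=
  ⟨fun _ _ _ _ h => sep_iff hC hE hS hW h, prime_mem hC hE hS hW M⟩

end Pool.Agent.Results.MP_e40716_gt.CommutingSeparators
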