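import Pool.Agent.Q91.VR.Det
import Pool.Agent.H219.WhP.LinInf

/-!
# The trace `K₁(K[G]) → HC₁(K[G])` at the elements of infinite order, for groups with torsion

If the assembly map for `K₁(K[G])`, `K` a field of characteristic zero, is surjective, then the
trace `K₁(K[G]) → HC₁(K[G])` vanishes at the conjugacy classes of elements of infinite order (for
`K` a regular ring this is the part which is not seen by the finite subgroups).  We prove this for
all groups, possibly with torsion, in which the elements of infinite order of finitely generated
subgroups `H` are detected by actions of `H` by increasing piecewise projective homeomorphisms of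
the line, linear representations of `H` in characteristic zero, or homomorphisms from `H` to
virtually residually finite `p`-groups, for infinitely many primes `p`.
-/

set_option autoImplicit false

namespace Pool.Agent.Results.MP_e40716_gt.InfiniteOrderClasses

open H219.WhC H219.WhP Pool.Agent.Q91.VR

universe u v

/-- Let `K` be a field of characteristic `0`, for example `ℚ`, and `G` a group such that all
elements of infinite order of finitely generated subgroups are detected. Then every cyclic
`1`-cocycle `f` on `K[G]` whose values on pairs of group elements lie in a finitely generated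
subring of `K`, and which vanishes on the pairs whose product has finite order, vanishes on every
invertible matrix over `K[G]` (in particular on those over `ℤ[G]`). -/
theorem result (K : Type u) [Field K] [CharZero K] (G : Type v) [Group G]
    (hG : ∀ H : Subgroup G, H.FG → ∀ g : H, (∀ m : ℕ, 0 < m → g ^ m ≠ 1) → Detected g)
    (n : ℕ) (A : (Matrix (Fin n) (Fin n) (MonoidAlgebra K G))ˣ)
    (s : Finset K) (f : G → G → K) (hs : ∀ x y, f x y ∈ Algebra.adjoin ℤ (s : Set K))
    (hf : ∀ x y z : G, f (x * y) z - f x (y * z) + f (z * x) y = 0) (hf1 : ∀ g : G, f 1 g = 0)
    (hfin : ∀ (g h : G) (m : ℕ), 0 < m → (g * h) ^ m = 1 → f g h = 0) :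
    (∑ i, ∑ j, ((A⁻¹).val i j).coeff.sum fun g b =>
        (A.val j i).coeff.sum fun h a => b * a * f g h) = 0 := by
  refine vanish_inf A s f hs hf hf1 hfin fun g hg hinf => ?_
  have hFG : (grpF A).FG := grpF_fg A
  have : Group.FG (grpF A) := (Group.fg_iff_subgroup_fg _).2 hFG
  have hd : Detected (⟨g, hg⟩ : grpF A) := hG (grpF A) hFG ⟨g, hg⟩ (fun m hm hc => hinf m hm (by
    simpa using congrArg Subtype.val hc))
  refine (inf_primes hd).mono ?_
  rintro p ⟨hp, h1⟩
  refine ⟨hp, fun j hj c hc heq => h1 j hj (isConj_iff.2 ⟨⟨c, hc⟩, Subtype.ext ?_⟩)⟩
  simpa using heq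

end Pool.Agent.Results.MP_e40716_gt.InfiniteOrderClasses
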