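import Pool.Agent.Q99.WC.Final

/-!
# Relative rational injectivity of `colim Wh(H) → Wh(G)` for every group

For every group `G` the canonical map `colim Wh(H) → Wh(G)`, the colimit being over the finite
subgroups `H` of `G`, is injective after tensoring with the rational numbers, and it stays so after
dividing out, on both sides, the relations given by any set `Θ` of injective homomorphisms
`θ : A → G` defined on subgroups `A` of `G` (for example a group of automorphisms of `G`) and the
classes coming from the members of any set `𝓗` of subgroups of `G`.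

The definitions of `Wh`, `colim Wh(H)` and of the assembly map are in `Pool.Agent.Y69.WhDef`
(namespace `Pool.Agent.Y69.FJ`), the subgroups `whRel` and `colimRel` are in
`Pool.Agent.Q99.WC.Final`.
-/

set_option autoImplicit false

namespace Pool.Agent.Results.MP_e40716_gt.RelativeInjectivity

open Pool.Agent.Y69 Pool.Agent.Q99.WC

/-- Let `G` be a group, `Θ` a set of injective homomorphisms `A → G` defined on subgroups `A` of
`G`, and `𝓗` a set of subgroups of `G`.  If a positive multiple of the image in `Wh(G)` of
`x ∈ colim Wh(H)` lies in the subgroup `whRel Θ 𝓗` generated by the differences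
`Wh(θ)(y) - Wh(i)(y)` and by the images of the groups `Wh(H)`, `H ∈ 𝓗`, then a positive multiple of
`x` lies in the corresponding subgroup `colimRel Θ 𝓗` of `colim Wh(H)`. -/
theorem result (G : Type) [Group G] (Θ : Set (Σ A : Subgroup G, A →* G)) (𝓗 : Set (Subgroup G))
    (hΘ : ∀ s ∈ Θ, Function.Injective s.2) (x : FJ.ColimWh G) (n : ℕ) (hn : 0 < n)
    (hx : n • FJ.assembly G x ∈ whRel Θ 𝓗) :
    ∃ l : ℕ, 0 < l ∧ l • x ∈ colimRel Θ 𝓗 :=
  wh_rel Θ 𝓗 hΘ x n hn hx

end Pool.Agent.Results.MP_e40716_gt.RelativeInjectivity
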